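import Pool.Agent.V11232.CT.Main

/-!
A family of languages that is `agsm⁻¹`-principal and `C`-principal, contains a nonregular
language, and is not closed under the transformation `T`.
-/

namespace Pool.Agent.Results.MP_c9c291_lc.PrincipalNotClosedT

open Pool.Agent.V11232.CT

theorem letters_ne (k : ℕ) : ly k ≠ lyb k ∧ ly k ≠ lz k ∧ lyb k ≠ lz k := by
  refine ⟨?_, ?_, ?_⟩ <;> · intro h; have := congrArg Fin.val h; simp [ly, lyb, lz] at this

theorem old_ne (k : ℕ) (x : Fin k) : old x ≠ ly k ∧ old x ≠ lyb k ∧ old x ≠ lz k := by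
  have hx := x.2
  refine ⟨?_, ?_, ?_⟩ <;>
    · intro h; have := congrArg Fin.val h; simp [ly, lyb, lz, old] at this; omega

/-- The test words `y^m z ȳ^n`. -/
def tst (k m n : ℕ) : List (Fin (k + 3)) := pw [ly k] m ++ [lz k] ++ pw [lyb k] n

theorem pw_snoc {α : Type} (u : List α) (n : ℕ) : pw u (n + 1) = pw u n ++ u := by
  rw [pw_add, pw_one]

theorem mem_pw_single {α : Type} (a b : α) (n : ℕ) (h : b ∈ pw [a] n) : b = a := by
  induction n with
  | zero => simp at h
  | succ n ih =>
    rw [pw_succ] at h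
    rcases List.mem_append.mp h with h | h
    · simpa using h
    · exact ih h

theorem der_inv {k : ℕ} {i : Fin 4} {w : List (Fin (k + 3))} (h : Der k i w) :
    (i = 0 ∨ i = 1 ∨ i = 2 → ∀ m n, w = tst k m n → m = n) ∧
    (i = 3 → ∃ v, w = lyb k :: v) := by
  have hL := letters_ne k
  have snoc_ne : ∀ (w : List (Fin (k + 3))) (a : Fin (k + 3)) (m n : ℕ),
      a ≠ lyb k → a ≠ lz k → w ++ [a] ≠ tst k m n := by
    intro w a m n h1 h2 h
    cases n with
    | zero =>
      simp only [tst, pw_zero, List.append_nil] at h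
      have := List.append_inj_right' h rfl
      simp at this; exact h2 this
    | succ n =>
      rw [tst, pw_snoc, ← List.append_assoc] at h
      have := List.append_inj_right' h rfl
      simp at this; exact h1 this
  have head_ne : ∀ (v : List (Fin (k + 3))) (m n : ℕ), lyb k :: v ≠ tst k m n := by
    intro v m n h
    cases m with
    | zero =>
      simp [tst] at h; exact hL.2.2 h.1
    | succ m =>
      rw [tst, pw_succ] at h
      simp at h; exact hL.1 h.1.symm
  induction h with
  | v0_v1 h ih => exact ⟨fun _ => ih.1 (by simp), by simp⟩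
  | v0_eps =>
    refine ⟨fun _ m n h => ?_, by simp⟩
    have := congrArg List.length h
    simp [tst] at this
  | v1_y h ih =>
    rename_i w
    refine ⟨fun _ m n h => ?_, by simp⟩
    cases m with
    | zero => simp [tst] at h; exact absurd h.1 hL.2.1
    | succ m =>
      cases n with
      | zero =>
        simp only [tst, pw_zero, List.append_nil] at h
        have := List.append_inj_right' h rfl
        simp at this; exact absurd this hL.2.2
      | succ n =>
        have : w = tst k m n := by
          rw [tst, pw_snoc [lyb k] n, ← List.append_assoc] at h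
          have h2 := List.append_inj_left' h rfl
          rw [pw_succ] at h2
          simp at h2
          rw [h2, tst]; simp
        have := ih.1 (by simp) m n this
        omega
  | v1_v3 h ih =>
    rename_i w
    refine ⟨fun _ m n h => ?_, by simp⟩
    obtain ⟨v, hv⟩ := ih.2 rfl
    rw [hv] at h
    exact absurd h (head_ne _ m n)
  | v1_z =>
    refine ⟨fun _ m n h => ?_, by simp⟩
    have := congrArg List.length h
    simp [tst, pw_length] at this
    omega
  | v2_x x h ih =>
    refine ⟨fun _ m n h => ?_, by simp⟩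
    exact absurd h (snoc_ne _ _ m n (old_ne k x).2.1 (old_ne k x).2.2)
  | v2_y h ih =>
    refine ⟨fun _ m n h => ?_, by simp⟩
    exact absurd h (snoc_ne _ _ m n hL.1 hL.2.1)
  | v2_v1 h ih => exact ⟨fun _ => ih.1 (by simp), by simp⟩
  | v3_x x h ih =>
    refine ⟨by simp, fun _ => ?_⟩
    obtain ⟨v, hv⟩ := ih.2 rfl
    exact ⟨v ++ [old x], by rw [hv]; rfl⟩
  | v3_y h ih =>
    refine ⟨by simp, fun _ => ?_⟩
    obtain ⟨v, hv⟩ := ih.2 rfl
    exact ⟨v ++ [ly k], by rw [hv]; rfl⟩
  | v3_yb h ih =>
    refine ⟨by simp, fun _ => ?_⟩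
    obtain ⟨v, hv⟩ := ih.2 rfl
    exact ⟨v ++ [lyb k], by rw [hv]; rfl⟩
  | v3_base => exact ⟨by simp, fun _ => ⟨[], rfl⟩⟩

theorem der_tst (k m : ℕ) : Der k 1 (tst k m m) := by
  induction m with
  | zero => exact Der.v1_z
  | succ m ih =>
    have := Der.v1_y (Der.v2_v1 ih)
    have h : tst k (m + 1) (m + 1) = [ly k] ++ tst k m m ++ [lyb k] := by
      rw [tst, pw_succ, pw_snoc, tst]; simp
    rw [h]; exact this

/-- The test language `{f₁ f₂}`. -/
def L12 : Language (Fin 2) := {[0, 1]}

/-- The full test words. -/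
def WW (m n : ℕ) : List (Fin 5) :=
  [lz 2, lyb 2, old 0] ++ pw [ly 2] m ++ [lz 2] ++ pw [lyb 2] n ++ [old 1, ly 2]

theorem WW_eq (m n : ℕ) : WW m n = [lz 2, lyb 2] ++ ([old 0] ++ tst 2 m n ++ [old 1]) ++ [ly 2] := by
  simp [WW, tst]

theorem WW_mem (B : (k : ℕ) → Language (Fin (k + 3))) (hB : [ly 2] ∈ B 2) (m : ℕ) :
    WW m m ∈ TT B L12 := by
  refine ⟨[0, 1], [old 0] ++ tst 2 m m ++ [old 1], [ly 2], rfl, ?_, hB, WW_eq m m⟩
  exact Spread.cons 0 (Der.v0_v1 (der_tst 2 m)) (Spread.one 1)

theorem WW_only (B : (k : ℕ) → Language (Fin (k + 3))) (m n : ℕ) (h : WW m n ∈ TT B L12) :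
    m = n := by
  obtain ⟨u, v, β, hu, hv, -, hw⟩ := h
  have hu' : u = [0, 1] := hu
  subst hu'
  cases hv with
  | cons f hα hs =>
    rename_i α v'
    cases hs with
    | one g =>
      rw [WW_eq] at hw
      -- hw : z ȳ (f0 tst f1) y = z ȳ (f0 α f1) β
      have h1 : tst 2 m n ++ ([old 1] ++ [ly 2]) = α ++ ([old 1] ++ β) := by
        simpa using hw
      have hnot : (old 1 : Fin 5) ∉ tst 2 m n := by
        intro hmem
        have ho := old_ne 2 1
        simp only [tst, List.mem_append] at hmem
        rcases hmem with (hmem | hmem) | hmem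
        · exact ho.1 (mem_pw_single _ _ _ hmem)
        · simp at hmem; exact ho.2.2 hmem
        · exact ho.2.1 (mem_pw_single _ _ _ hmem)
      have hα' : α = tst 2 m n := by
        rcases List.append_eq_append_iff.mp h1 with ⟨a, h2, h3⟩ | ⟨c, h2, h3⟩
        · cases a with
          | nil => simpa using h2
          | cons x a =>
            exfalso
            have h4 : ([old 1, ly 2] : List (Fin 5)) = x :: (a ++ ([old 1] ++ β)) := by
              simpa using h3
            have h5 : ([ly 2] : List (Fin 5)) = a ++ ([old 1] ++ β) := (List.cons.inj h4).2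
            cases a with
            | nil =>
              have h6 : (ly 2 : Fin 5) = old 1 := (List.cons.inj h5).1
              exact (old_ne 2 1).1 h6.symm
            | cons x' a =>
              have := congrArg List.length h5
              simp at this
        · cases c with
          | nil => simpa using h2.symm
          | cons x c =>
            exfalso
            have h4 : (old 1 : Fin 5) :: β = x :: (c ++ ([old 1] ++ [ly 2])) := by
              simpa using h3
            have h5 : (old 1 : Fin 5) = x := (List.cons.inj h4).1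
            apply hnot
            rw [h2, h5]; simp
      have := (der_inv (k := 2) hα).1 (by simp) m n hα'
      exact this
    | cons g hα2 hs2 => cases hs2

/-- An automaton accepting the word `f₁ f₂` only. -/
def D12 : DFA (Fin 2) (Fin 4) where
  step s x := if s = 0 ∧ x = 0 then 1 else if s = 1 ∧ x = 1 then 2 else 3
  start := 0
  accept := {2}

theorem D12_from3 (w : List (Fin 2)) : D12.evalFrom 3 w = 3 := by
  induction w with
  | nil => rfl
  | cons x w ih =>
    have h : D12.step 3 x = 3 := by fin_cases x <;> rfl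
    change D12.evalFrom (D12.step 3 x) w = 3
    rw [h]; exact ih

theorem D12_accepts : D12.accepts = ({[0, 1]} : Language (Fin 2)) := by
  ext w
  rw [DFA.mem_accepts]
  change D12.evalFrom 0 w = 2 ↔ w = [0, 1]
  constructor
  · intro h
    match w, h with
    | [], h => exact absurd (show (0 : Fin 4) = 2 from h) (by decide)
    | 1 :: w, h =>
      have : D12.evalFrom 3 w = 2 := h
      rw [D12_from3] at this; exact absurd this (by decide)
    | [0], h => exact absurd (show (1 : Fin 4) = 2 from h) (by decide)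
    | 0 :: 0 :: w, h =>
      have : D12.evalFrom 3 w = 2 := h
      rw [D12_from3] at this; exact absurd this (by decide)
    | [0, 1], _ => rfl
    | 0 :: 1 :: x :: w, h =>
      have h2 : D12.step 2 x = 3 := by fin_cases x <;> rfl
      have : D12.evalFrom (D12.step 2 x) w = 2 := h
      rw [h2, D12_from3] at this; exact absurd this (by decide)
  · rintro rfl; rfl

theorem L12_mem : L12 ∈ FF 2 := by
  have hC := closed_of_agsm _ closed_FF
  have h1 : ({w : List (Fin 2) | w.flatMap (fun _ => ([] : List (Fin 3))) ∈ LM0} :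
      Language (Fin 2)) ∈ FF 2 :=
    hC 3 2 LM0 _ LM0_mem (opC.invHom _ _ _ rfl)
  have h2 := hC 2 2 _ _ h1 (opC.interReg _ D12.accepts ⟨Fin 4, inferInstance, D12, rfl⟩)
  convert h2 using 1
  rw [D12_accepts]
  ext w
  change w = [0, 1] ↔ (M0 (w.flatMap (fun _ => ([] : List (Fin 3)))) ∧ w = [0, 1])
  have : (w.flatMap (fun _ => ([] : List (Fin 3)))) = [] := by simp
  rw [this]
  exact ⟨fun h => ⟨M0.nil, h⟩, fun h => h.2⟩

theorem TT_not_mem (B : (k : ℕ) → Language (Fin (k + 3))) (hB : [ly 2] ∈ B 2) :
    TT B L12 ∉ FF 5 := by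
  rintro ⟨g, hg⟩
  obtain ⟨s1, α1, γ1, -, hp1⟩ := pump g (g.run g.q0 [lz 2, lyb 2, old 0]) [ly 2]
  obtain ⟨s2, α2, γ2, -, hp2⟩ := pump g (g.run s1 [lz 2]) [lyb 2]
  have hrun : ∀ m n, g.run g.q0 (WW (g.n + g.n.factorial * m) (g.n + g.n.factorial * n)) =
      g.run s2 [old 1, ly 2] := by
    intro m n
    rw [WW, run_append, run_append, run_append, run_append, (hp1 m).1, (hp2 n).1]
  have hout : ∀ m n, g.out g.q0 (WW (g.n + g.n.factorial * m) (g.n + g.n.factorial * n)) =
      (g.out g.q0 [lz 2, lyb 2, old 0] ++ α1) ++ pw γ1 m ++ (g.out s1 [lz 2] ++ α2) ++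
        pw γ2 n ++ g.out s2 [old 1, ly 2] := by
    intro m n
    simp only [WW, out_append, run_append, (hp1 m).1, (hp1 m).2, (hp2 n).1, (hp2 n).2,
      List.append_assoc]
  have hmem : ∀ n, g.final (g.run s2 [old 1, ly 2]) = true ∧
      M0 ((g.out g.q0 [lz 2, lyb 2, old 0] ++ α1) ++ pw γ1 n ++ (g.out s1 [lz 2] ++ α2) ++
        pw γ2 n ++ g.out s2 [old 1, ly 2]) := by
    intro n
    have h1 := WW_mem B hB (g.n + g.n.factorial * n)
    rw [hg] at h1
    obtain ⟨h2, h3⟩ := h1
    rw [hrun] at h2
    rw [hout] at h3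
    exact ⟨h2, h3⟩
  obtain ⟨m, n, hmn, hM⟩ := main_lemma _ _ _ _ _ _ le_rfl (fun n => (hmem n).2)
  have h4 : WW (g.n + g.n.factorial * m) (g.n + g.n.factorial * n) ∈ TT B L12 := by
    rw [hg]
    refine ⟨?_, ?_⟩
    · rw [hrun]; exact (hmem 0).1
    · rw [hout]; exact hM
  have h5 := WW_only B _ _ h4
  apply hmn
  have h6 : g.n.factorial * m = g.n.factorial * n := by omega
  exact Nat.eq_of_mul_eq_mul_left (Nat.factorial_pos _) h6

theorem LB_mem : [ly 2] ∈ LB 2 := Or.inl rfl

theorem LB'_mem : [ly 2] ∈ LB' 2 := by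
  have h1 : ([] : List (Fin 5)) ∈ (KStar.kstar ({[ly 2]} : Language (Fin 5)) : Language (Fin 5)) :=
    Language.nil_mem_kstar _
  have h2 : ([] : List (Fin 5)) ∈ (KStar.kstar (LU 2) : Language (Fin 5)) :=
    Language.nil_mem_kstar _
  have h3 := Language.append_mem_mul (Language.append_mem_mul
    (show [ly 2] ∈ ({[ly 2]} : Language (Fin 5)) from rfl) h1) h2
  simpa [LB'] using h3

/-- There is a family of languages that is `agsm⁻¹`-principal and `C`-principal and contains a
nonregular language, but is not closed under `T` (for both readings of the language `B`): already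
`T({f₁f₂})` is outside of the family. -/
theorem result :
    ∃ F : Fam, Principal opAgsm F ∧ Principal opC F ∧
      (∃ k, ∃ L ∈ F k, ¬ L.IsRegular) ∧
      ({[0, 1]} : Language (Fin 2)) ∈ F 2 ∧
      TT LB ({[0, 1]} : Language (Fin 2)) ∉ F 5 ∧
      TT LB' ({[0, 1]} : Language (Fin 2)) ∉ F 5 :=
  ⟨FF, principal_agsm, principal_C, ⟨3, LM0, LM0_mem, nonregular⟩, L12_mem,
    TT_not_mem LB LB_mem, TT_not_mem LB' LB'_mem⟩

end Pool.Agent.Results.MP_c9c291_lc.PrincipalNotClosedT
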